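import Mathlib
import Pool.Agent.V1154.XC.EF

open scoped RealInnerProductSpace
open Pool.Agent.V1154.XC

namespace Pool.Agent.Results.MP_899f7c_co.DualVoronoi

/-- A `d`-dimensional lattice in `ℝ^n`: the image of `ℤ^d` under an injective linear map. -/
def IsLattice (d : ℕ) {n : ℕ} (Λ : Set (EuclideanSpace ℝ (Fin n))) : Prop :=
  ∃ B : (Fin d → ℝ) →ₗ[ℝ] EuclideanSpace ℝ (Fin n), Function.Injective B ∧
    Λ = {x | ∃ z : Fin d → ℤ, x = B (fun i => (z i : ℝ))}

/-- The Voronoi cell of `Λ` (inside the linear hull of `Λ`). -/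
def VC {n : ℕ} (Λ : Set (EuclideanSpace ℝ (Fin n))) : Set (EuclideanSpace ℝ (Fin n)) :=
  {x | x ∈ Submodule.span ℝ Λ ∧ ∀ z ∈ Λ, ‖x‖ ≤ ‖x - z‖}

/-- The dual lattice. -/
def dual {n : ℕ} (Λ : Set (EuclideanSpace ℝ (Fin n))) : Set (EuclideanSpace ℝ (Fin n)) :=
  {y | y ∈ Submodule.span ℝ Λ ∧ ∀ z ∈ Λ, ∃ k : ℤ, ⟪y, z⟫ = (k : ℝ)}

/-- the linear map of a square matrix -/
noncomputable def lin {d : ℕ} (X : Matrix (Fin d) (Fin d) ℝ) :
    (Fin d → ℝ) →ₗ[ℝ] EuclideanSpace ℝ (Fin d) :=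
  (WithLp.linearEquiv 2 ℝ (Fin d → ℝ)).symm.toLinearMap ∘ₗ X.mulVecLin

theorem lin_apply {d : ℕ} (X : Matrix (Fin d) (Fin d) ℝ) (v : Fin d → ℝ) (i : Fin d) :
    lin X v i = X.mulVec v i := rfl

/-- the lattice spanned by the columns of `X` -/
def lat {d : ℕ} (X : Matrix (Fin d) (Fin d) ℝ) : Set (EuclideanSpace ℝ (Fin d)) :=
  {x | ∃ z : Fin d → ℤ, x = lin X (fun i => (z i : ℝ))}

/-- `Xᵀ x` -/
noncomputable def tr {d : ℕ} (X : Matrix (Fin d) (Fin d) ℝ) :
    EuclideanSpace ℝ (Fin d) →ₗ[ℝ] (Fin d → ℝ) :=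
  X.transpose.mulVecLin ∘ₗ (WithLp.linearEquiv 2 ℝ (Fin d → ℝ)).toLinearMap

theorem tr_apply {d : ℕ} (X : Matrix (Fin d) (Fin d) ℝ) (x : EuclideanSpace ℝ (Fin d))
    (i : Fin d) : tr X x i = ∑ k, X k i * x k := rfl

theorem inner_lin {d : ℕ} (X : Matrix (Fin d) (Fin d) ℝ) (x : EuclideanSpace ℝ (Fin d))
    (v : Fin d → ℝ) : ⟪x, lin X v⟫ = ∑ i, tr X x i * v i := by
  rw [PiLp.inner_apply]
  have h1 : ∀ i, ⟪x i, lin X v i⟫ = ∑ k, X i k * x i * v k := by
    intro i
    rw [lin_apply, Matrix.mulVec, dotProduct]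
    simp only [RCLike.inner_apply, conj_trivial]
    rw [Finset.sum_mul]
    exact Finset.sum_congr rfl fun k _ => by ring
  simp only [h1]
  rw [Finset.sum_comm]
  refine Finset.sum_congr rfl fun k _ => ?_
  rw [tr_apply, Finset.sum_mul]

theorem tr_lin {d : ℕ} (X Y : Matrix (Fin d) (Fin d) ℝ) (v : Fin d → ℝ) :
    tr X (lin Y v) = (X.transpose * Y).mulVec v := by
  rw [← Matrix.mulVec_mulVec]
  rfl

theorem lin_tr {d : ℕ} (X Y : Matrix (Fin d) (Fin d) ℝ) (h : X * Y.transpose = 1)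
    (x : EuclideanSpace ℝ (Fin d)) : lin X (tr Y x) = x := by
  have h1 : X.mulVec (Y.transpose.mulVec (x.ofLp)) = x.ofLp := by
    rw [Matrix.mulVec_mulVec, h, Matrix.one_mulVec]
  ext i
  exact congrFun h1 i

theorem norm_lin {d : ℕ} (X : Matrix (Fin d) (Fin d) ℝ) (v : Fin d → ℝ) :
    ‖lin X v‖ ^ 2 = mq (X.transpose * X) v := by
  rw [← real_inner_self_eq_norm_sq, inner_lin, tr_lin]
  unfold mq
  refine Finset.sum_congr rfl fun i _ => ?_
  rw [Matrix.mulVec, dotProduct, Finset.sum_mul]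
  exact Finset.sum_congr rfl fun j _ => by ring

theorem span_lat {d : ℕ} (X Y : Matrix (Fin d) (Fin d) ℝ) (h : X * Y.transpose = 1) :
    Submodule.span ℝ (lat X) = ⊤ := by
  classical
  rw [eq_top_iff]
  rintro x -
  rw [← lin_tr X Y h x]
  have : tr Y x = ∑ i, tr Y x i • (Pi.single i (1 : ℝ) : Fin d → ℝ) := by
    funext j
    simp [Finset.sum_apply, Pi.single_apply]
  rw [this, map_sum]
  refine Submodule.sum_mem _ fun i _ => ?_
  rw [map_smul]
  refine Submodule.smul_mem _ _ (Submodule.subset_span ⟨Pi.single i 1, ?_⟩)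
  congr 1
  funext j
  by_cases hj : j = i
  · subst hj
    simp
  · simp [hj]

theorem mem_VC {d : ℕ} (X Y : Matrix (Fin d) (Fin d) ℝ) (h : X * Y.transpose = 1)
    (x : EuclideanSpace ℝ (Fin d)) : x ∈ VC (lat X) ↔
      ∀ z : Fin d → ℤ, ∑ i, tr X x i * (z i : ℝ)
        ≤ (1 / 2) * mq (X.transpose * X) (fun i => (z i : ℝ)) := by
  have key : ∀ z : Fin d → ℤ, ‖x‖ ≤ ‖x - lin X (fun i => (z i : ℝ))‖ ↔
      ∑ i, tr X x i * (z i : ℝ) ≤ (1 / 2) * mq (X.transpose * X) (fun i => (z i : ℝ)) := by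
    intro z
    rw [← inner_lin X x (fun i => (z i : ℝ)), ← norm_lin]
    have h1 := norm_sub_sq_real x (lin X (fun i => (z i : ℝ)))
    rw [← sq_le_sq₀ (norm_nonneg _) (norm_nonneg _), h1]
    constructor <;> intro h2 <;> linarith
  constructor
  · rintro ⟨-, hx⟩ z
    exact (key z).1 (hx _ ⟨z, rfl⟩)
  · intro hx
    refine ⟨by rw [span_lat X Y h]; trivial, ?_⟩
    rintro _ ⟨z, rfl⟩
    exact (key z).2 (hx z)

theorem isLattice_lat {d : ℕ} (X Y : Matrix (Fin d) (Fin d) ℝ) (h : Y.transpose * X = 1) :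
    IsLattice d (lat X) := by
  refine ⟨lin X, ?_, rfl⟩
  intro v w hvw
  have := congrArg (tr Y) hvw
  rwa [tr_lin, tr_lin, h, Matrix.one_mulVec, Matrix.one_mulVec] at this

theorem dual_lat {d : ℕ} (B C : Matrix (Fin d) (Fin d) ℝ) (h : B.transpose * C = 1) :
    dual (lat C) = lat B := by
  classical
  have h1 : C.transpose * B = 1 := by
    have := congrArg Matrix.transpose h
    rwa [Matrix.transpose_mul, Matrix.transpose_transpose, Matrix.transpose_one] at this
  have h2 : B * C.transpose = 1 := mul_eq_one_comm.1 h1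
  have h3 : C * B.transpose = 1 := mul_eq_one_comm.1 h
  ext y
  constructor
  · rintro ⟨-, hy⟩
    have h4 : ∀ i, ∃ k : ℤ, tr C y i = k := by
      intro i
      obtain ⟨k, hk⟩ := hy (lin C (fun j => ((Pi.single i 1 : Fin d → ℤ) j : ℝ)))
        ⟨Pi.single i 1, rfl⟩
      refine ⟨k, ?_⟩
      rw [← hk, inner_lin, Finset.sum_eq_single i]
      · simp
      · intro j _ hj
        simp [hj]
      · simp
    choose k hk using h4
    refine ⟨k, ?_⟩
    have h5 : (fun i => (k i : ℝ)) = tr C y := by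
      funext i
      exact (hk i).symm
    rw [h5, lin_tr B C h2]
  · rintro ⟨w, rfl⟩
    refine ⟨by rw [span_lat C B h3]; trivial, ?_⟩
    rintro _ ⟨z, rfl⟩
    refine ⟨∑ i, w i * z i, ?_⟩
    rw [inner_lin, tr_lin, h1, Matrix.one_mulVec]
    push_cast
    rfl

/-- The family of lattices. -/
theorem family (m : ℕ) (hm : 1 ≤ m) : ∃ Λ : Set (EuclideanSpace ℝ (Fin (4 * m ^ 2 + 2 * m + 1))),
    IsLattice (4 * m ^ 2 + 2 * m + 1) Λ ∧
    HasEF (VC Λ) (2 * ((4 * m ^ 2 + 2 * m + 1) + (4 * m ^ 2 + 2 * m + 1) ^ 2)) ∧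
    (∃ r, HasEF (VC (dual Λ)) r) ∧
    ∀ r, HasEF (VC (dual Λ)) r → 3 ^ m ≤ (r + 1) * 2 ^ m := by
  classical
  obtain ⟨B0, C0, hcore0⟩ := core_ix m hm
  have hcard : Fintype.card (Ix m) = 4 * m ^ 2 + 2 * m + 1 := by
    simp only [Fintype.card_sum, Fintype.card_prod, Fintype.card_fin, Fintype.card_unit]
    ring
  set d := 4 * m ^ 2 + 2 * m + 1 with hd
  let e : Fin d ≃ Ix m := (Fintype.equivFinOfCardEq hcard).symm
  have hcore := hcore0.transfer e
  set B := B0.submatrix e e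
  set C := C0.submatrix e e
  have hBC := hcore.inv
  have hCB : C.transpose * B = 1 := by
    have := congrArg Matrix.transpose hBC
    rwa [Matrix.transpose_mul, Matrix.transpose_transpose, Matrix.transpose_one] at this
  have hB : B * C.transpose = 1 := mul_eq_one_comm.1 hCB
  have hC : C * B.transpose = 1 := mul_eq_one_comm.1 hBC
  refine ⟨lat C, isLattice_lat C B hBC, ?_, ?_, ?_⟩
  · -- the Voronoi cell of `Λ` is a zonotope
    have hsym : ∀ i j, (C.transpose * C) i j = (C.transpose * C) j i := by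
      intro i j
      have : (C.transpose * C).transpose = C.transpose * C := by
        rw [Matrix.transpose_mul, Matrix.transpose_transpose]
      conv_lhs => rw [← this]
      rfl
    have hz := zono (fun i => ∑ j, (C.transpose * C) i j)
      (fun i j => if i = j then 0 else - (C.transpose * C) i j) hcore.row (by
        intro i j
        split_ifs with hij
        · exact le_rfl
        · have := hcore.off i j hij
          linarith)
    have hVC : VC (lat C) = (lin B ∘ₗ zmap (fun i => ∑ j, (C.transpose * C) i j)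
        (fun i j => if i = j then 0 else - (C.transpose * C) i j)) ''
          cube (Fin d ⊕ Fin d × Fin d) := by
      rw [LinearMap.coe_comp, Set.image_comp, ← hz]
      ext x
      rw [mem_VC C B hC]
      constructor
      · intro hx
        refine ⟨tr C x, ?_, lin_tr B C hB x⟩
        intro z
        rw [← mq_eq_qf _ hsym]
        exact hx z
      · rintro ⟨u, hu, rfl⟩ z
        rw [tr_lin, hCB, Matrix.one_mulVec, mq_eq_qf _ hsym]
        exact hu z
    rw [hVC]
    have := cube_ef (lin B ∘ₗ zmap (fun i => ∑ j, (C.transpose * C) i j)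
        (fun i j => if i = j then 0 else - (C.transpose * C) i j))
    simp only [Fintype.card_sum, Fintype.card_prod, Fintype.card_fin] at this
    rwa [← sq] at this
  · -- the Voronoi cell of the dual lattice has some extended formulation
    rw [dual_lat B C hBC]
    set G := B.transpose * B with hG
    let zz : (Fin d → Fin 3) → Fin d → ℤ := fun j i => (j i : ℤ) - 1
    have hK : VC (lat B) = lin C '' {u : Fin d → ℝ | ∀ j : Fin d → Fin 3,
        ∑ i, ((zz j i : ℤ) : ℝ) * u i ≤ (1 / 2) * mq G (fun i => ((zz j i : ℤ) : ℝ))} := by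
      ext x
      rw [mem_VC B C hB]
      constructor
      · intro hx
        refine ⟨tr B x, fun j => ?_, lin_tr C B hC x⟩
        have := hx (zz j)
        simp only [mul_comm] at this ⊢
        exact this
      · rintro ⟨u, hu, rfl⟩
        rw [tr_lin, hBC, Matrix.one_mulVec]
        refine hcore.fin u (fun z hz => ?_)
        have h1 : ∀ i, ∃ k : Fin 3, (k : ℤ) - 1 = z i := by
          intro i
          have := abs_le.1 (hz i)
          refine ⟨⟨(z i + 1).toNat, by omega⟩, ?_⟩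
          simp only
          omega
        choose j hj using h1
        have h2 := hu j
        have h3 : zz j = z := funext hj
        rw [h3] at h2
        simp only [mul_comm] at h2 ⊢
        exact h2
    rw [hK]
    refine ⟨_, hasEF_of_fintype (fun j i => ((zz j i : ℤ) : ℝ))
      (fun j => (1 / 2) * mq G (fun i => ((zz j i : ℤ) : ℝ))) (lin C) ?_⟩
    -- boundedness
    set R : ℝ := ∑ i, (1 / 2) * |G i i| with hR
    refine (Metric.isBounded_closedBall (x := (0 : Fin d → ℝ)) (r := R)).subset ?_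
    intro u hu
    rw [mem_closedBall_zero_iff]
    have hR0 : 0 ≤ R := Finset.sum_nonneg fun i _ => by positivity
    rw [pi_norm_le_iff_of_nonneg hR0]
    intro i
    have key : ∀ s : Fin 3, s ≠ 1 →
        (((s : ℤ) - 1 : ℤ) : ℝ) * u i ≤ (1 / 2) * |G i i| := by
      intro s hs
      have h1 := hu (fun k => if k = i then s else 1)
      have h2 : ∀ k, zz (fun k => if k = i then s else 1) k = if k = i then (s : ℤ) - 1 else 0 := by
        intro k
        simp only [zz]
        split_ifs <;> simp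
      simp only [h2] at h1
      have h3 : ∑ k, (((if k = i then (s : ℤ) - 1 else 0 : ℤ)) : ℝ) * u k
          = (((s : ℤ) - 1 : ℤ) : ℝ) * u i := by
        rw [Finset.sum_eq_single i]
        · simp
        · intro k _ hk
          simp [hk]
        · simp
      have h4 : mq G (fun k => (((if k = i then (s : ℤ) - 1 else 0 : ℤ)) : ℝ)) = G i i := by
        unfold mq
        rw [Finset.sum_eq_single i]
        · rw [Finset.sum_eq_single i]
          · have hs2 : (((s : ℤ) - 1 : ℤ) : ℝ) * (((s : ℤ) - 1 : ℤ) : ℝ) = 1 := by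
              fin_cases s
              · norm_num
              · exact absurd rfl hs
              · norm_num
            simp only [if_true]
            rw [mul_assoc, hs2, mul_one]
          · intro k _ hk
            simp [hk]
          · simp
        · intro k _ hk
          simp [hk]
        · simp
      rw [h3, h4] at h1
      have := le_abs_self (G i i)
      linarith
    have k0 := key 0 (by decide)
    have k2 := key 2 (by decide)
    have hle : (1 / 2) * |G i i| ≤ R :=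
      Finset.single_le_sum (f := fun i => (1 / 2) * |G i i|) (fun i _ => by positivity)
        (Finset.mem_univ i)
    rw [Real.norm_eq_abs, abs_le]
    norm_num at k0 k2
    constructor <;> linarith
  · intro r hr
    rw [dual_lat B C hBC] at hr
    obtain ⟨u, z, hu, h1, h0⟩ := hcore.udisj
    have hcomm : ∀ a b : Fin m → Bool, meet a b = meet b a := by
      intro a b
      unfold meet
      exact Finset.sum_congr rfl fun i _ => by simp only [and_comm]
    have htr : ∀ v, tr B (lin C v) = v := by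
      intro v
      rw [tr_lin, hBC, Matrix.one_mulVec]
    let l : (Fin m → Bool) → EuclideanSpace ℝ (Fin d) →ₗ[ℝ] ℝ := fun β =>
      (∑ i, ((z β i : ℤ) : ℝ) • LinearMap.proj (R := ℝ) (φ := fun _ : Fin d => ℝ) i) ∘ₗ tr B
    have hl : ∀ β x, l β x = ∑ i, tr B x i * ((z β i : ℤ) : ℝ) := by
      intro β x
      simp only [l, LinearMap.comp_apply, LinearMap.sum_apply, LinearMap.smul_apply,
        LinearMap.proj_apply, smul_eq_mul]
      exact Finset.sum_congr rfl fun i _ => mul_comm _ _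
    refine udisj_bound (VC (lat B)) r m hr l
      (fun β => (1 / 2) * mq (B.transpose * B) (fun i => ((z β i : ℤ) : ℝ))) ?_
      (fun α => lin C (u α)) ?_ ?_ ?_
    · intro β x hx
      rw [hl]
      exact (mem_VC B C hB x).1 hx (z β)
    · intro α
      rw [mem_VC B C hB, htr]
      exact hu α
    · intro β α hm'
      rw [hl, htr]
      exact h1 α β (by rw [hcomm]; exact hm')
    · intro β α hm'
      rw [hl, htr]
      exact h0 α β (by rw [hcomm]; exact hm')

/-- **Main theorem.** -/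
theorem result :
    (∀ m : ℕ, 1 ≤ m → ∃ d : ℕ, d = 4 * m ^ 2 + 2 * m + 1 ∧
      ∃ Λ : Set (EuclideanSpace ℝ (Fin d)), IsLattice d Λ ∧
        (∃ r, HasEF (VC Λ) r) ∧ (∃ r, HasEF (VC (dual Λ)) r) ∧
        xc (VC Λ) ≤ 2 * (d + d ^ 2) ∧ 3 ^ m ≤ (xc (VC (dual Λ)) + 1) * 2 ^ m) ∧
    ¬ ∃ p : Polynomial ℝ, ∀ d n : ℕ, 1 ≤ d → ∀ Λ : Set (EuclideanSpace ℝ (Fin n)),
      IsLattice d Λ → (xc (VC (dual Λ)) : ℝ) ≤ p.eval (xc (VC Λ) : ℝ) := by
  have main : ∀ m : ℕ, 1 ≤ m → ∃ d : ℕ, d = 4 * m ^ 2 + 2 * m + 1 ∧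
      ∃ Λ : Set (EuclideanSpace ℝ (Fin d)), IsLattice d Λ ∧
        (∃ r, HasEF (VC Λ) r) ∧ (∃ r, HasEF (VC (dual Λ)) r) ∧
        xc (VC Λ) ≤ 2 * (d + d ^ 2) ∧ 3 ^ m ≤ (xc (VC (dual Λ)) + 1) * 2 ^ m := by
    intro m hm
    obtain ⟨Λ, h1, h2, h3, h4⟩ := family m hm
    exact ⟨_, rfl, Λ, h1, ⟨_, h2⟩, h3, Nat.sInf_le h2, h4 _ (Nat.sInf_mem h3)⟩
  refine ⟨main, ?_⟩
  rintro ⟨p, hp⟩
  -- polynomial bound
  set A : ℝ := ∑ i ∈ Finset.range (p.natDegree + 1), |p.coeff i| with hA
  have hA0 : 0 ≤ A := Finset.sum_nonneg fun i _ => abs_nonneg _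
  set e := p.natDegree with he
  have hbound : ∀ x y : ℝ, 0 ≤ x → x + 1 ≤ y → p.eval x ≤ A * y ^ e := by
    intro x y hx hxy
    rw [Polynomial.eval_eq_sum_range, hA, Finset.sum_mul]
    refine Finset.sum_le_sum fun i hi => ?_
    have hi' : i ≤ e := Nat.lt_succ_iff.1 (Finset.mem_range.1 hi)
    have h1 : x ^ i ≤ y ^ e := by
      calc x ^ i ≤ y ^ i := pow_le_pow_left₀ hx (by linarith) i
        _ ≤ y ^ e := pow_le_pow_right₀ (by linarith) hi'
    calc p.coeff i * x ^ i ≤ |p.coeff i| * x ^ i :=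
          mul_le_mul_of_nonneg_right (le_abs_self _) (by positivity)
      _ ≤ |p.coeff i| * y ^ e := mul_le_mul_of_nonneg_left h1 (abs_nonneg _)
  -- growth
  have hgrow : ∀ m : ℕ, 1 ≤ m →
      (3 / 2 : ℝ) ^ m ≤ A * 113 ^ e * (m : ℝ) ^ (4 * e) + 1 := by
    intro m hm
    obtain ⟨d, hd, Λ, h1, -, -, h2, h3⟩ := main m hm
    have h4 := hp d d (by omega) Λ h1
    have hm1 : (1 : ℝ) ≤ m := by exact_mod_cast hm
    have hd7 : (d : ℝ) ≤ 7 * (m : ℝ) ^ 2 := by
      rw [hd]
      push_cast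
      nlinarith
    have hx : (xc (VC Λ) : ℝ) ≤ 2 * ((d : ℝ) + (d : ℝ) ^ 2) := by exact_mod_cast h2
    have hd0 : (0 : ℝ) ≤ d := Nat.cast_nonneg _
    have hm2 : (m : ℝ) ^ 2 ≤ (m : ℝ) ^ 4 := pow_le_pow_right₀ hm1 (by norm_num)
    have hm4 : (1 : ℝ) ≤ (m : ℝ) ^ 4 := one_le_pow₀ hm1
    have hd2 : (d : ℝ) ^ 2 ≤ 49 * (m : ℝ) ^ 4 := by
      have := mul_le_mul hd7 hd7 hd0 (by positivity)
      nlinarith
    have h5 := hbound (xc (VC Λ) : ℝ) (113 * (m : ℝ) ^ 4) (Nat.cast_nonneg _) (by linarith)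
    have h6 : (xc (VC (dual Λ)) : ℝ) ≤ A * 113 ^ e * (m : ℝ) ^ (4 * e) := by
      refine (h4.trans h5).trans (le_of_eq ?_)
      rw [mul_pow, pow_mul]
      ring
    have h7 : (3 : ℝ) ^ m ≤ ((xc (VC (dual Λ)) : ℝ) + 1) * 2 ^ m := by exact_mod_cast h3
    rw [div_pow, div_le_iff₀ (by positivity)]
    refine h7.trans (mul_le_mul_of_nonneg_right (by linarith) (by positivity))
  -- contradiction
  have ht1 := tendsto_pow_const_div_const_pow_of_one_lt (4 * e) (r := (3 / 2 : ℝ)) (by norm_num)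
  have ht0 := tendsto_pow_const_div_const_pow_of_one_lt 0 (r := (3 / 2 : ℝ)) (by norm_num)
  have ht2 := (ht1.const_mul (A * 113 ^ e)).add ht0
  rw [mul_zero, add_zero] at ht2
  have hev := (ht2.eventually_lt_const (show (0 : ℝ) < 1 by norm_num)).and
    (Filter.eventually_ge_atTop 1)
  obtain ⟨m, hm1, hm2⟩ := hev.exists
  have h8 := hgrow m hm2
  have hpos : (0 : ℝ) < (3 / 2) ^ m := by positivity
  have h9 : A * 113 ^ e * ((m : ℝ) ^ (4 * e) / (3 / 2) ^ m) + (m : ℝ) ^ 0 / (3 / 2) ^ m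
      = (A * 113 ^ e * (m : ℝ) ^ (4 * e) + 1) / (3 / 2) ^ m := by
    rw [pow_zero]
    ring
  rw [h9, div_lt_one hpos] at hm1
  linarith

end Pool.Agent.Results.MP_899f7c_co.DualVoronoi
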